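import Pool.Agent.MQG.StmtsH

set_option autoImplicit false

/-!
# HLM: means of an approximate identity are an approximate identity
-/

namespace Pool.Agent.MQG.H31

open scoped InnerProductSpace InnerProduct Topology
open Complex Filter MeasureTheory

variable {ι : Type}

/-- an operator with bounded matrix elements -/
theorem opNorm_le_of_form (D : Op ι) (C : ℝ) (hC : 0 ≤ C)
    (h : ∀ u y, ‖⟪u, D y⟫_ℂ‖ ≤ C * (‖u‖ * ‖y‖)) : ‖D‖ ≤ C := by
  refine ContinuousLinearMap.opNorm_le_bound _ hC fun y => ?_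
  by_cases h0 : D y = 0
  · rw [h0, norm_zero]
    positivity
  · have h1 := h (D y) y
    have h3 : ‖⟪D y, D y⟫_ℂ‖ = ‖D y‖ * ‖D y‖ := by
      rw [inner_self_eq_norm_sq_to_K, norm_pow]
      simp [pow_two]
    rw [h3] at h1
    have h2 : 0 < ‖D y‖ := norm_pos_iff.2 h0
    refine le_of_mul_le_mul_left ?_ h2
    calc ‖D y‖ * ‖D y‖ ≤ C * (‖D y‖ * ‖y‖) := h1
      _ = ‖D y‖ * (C * ‖y‖) := by ring

/-- `b_t = V(-t) b V t` -/
noncomputable def bt (V : ℝ → Op ι) (b : Op ι) (t : ℝ) : Op ι := V (-t) * b * V t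

theorem bt_apply {V : ℝ → Op ι} (hV : IsGroup V) (b : Op ι) (t : ℝ) (y : L2 ι) :
    V (-t) (b y) = bt V b t (V (-t) y) := by
  change V (-t) (b y) = V (-t) (b (V t (V (-t) y)))
  rw [← hV.apply_add, add_neg_cancel, hV.apply_zero]

theorem star_bt {V : ℝ → Op ι} (hV : IsGroup V) (b : Op ι) (t : ℝ) :
    star (bt V b t) = bt V (star b) t := by
  unfold bt
  rw [star_mul, star_mul, hV.star_eq, hV.star_eq, neg_neg, mul_assoc]

theorem norm_bt_le {V : ℝ → Op ι} (hV : IsGroup V) (b : Op ι) (t : ℝ) : ‖bt V b t‖ ≤ ‖b‖ := by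
  unfold bt
  calc ‖V (-t) * b * V t‖ ≤ ‖V (-t)‖ * ‖b‖ * ‖V t‖ :=
        (norm_mul_le _ _).trans (mul_le_mul_of_nonneg_right (norm_mul_le _ _) (norm_nonneg _))
    _ ≤ 1 * ‖b‖ * 1 := by
        have h1 := hV.norm_le (-t)
        have h2 := hV.norm_le t
        gcongr
    _ = ‖b‖ := by ring

/-- a bounded continuous function times the kernel is integrable -/
theorem int_bd (z : ℂ) (φ : ℝ → ℝ) (hφ : Continuous φ) (C : ℝ) (hC : ∀ t, ‖φ t‖ ≤ C) :
    Integrable fun t => ‖gk 0 z t‖ * φ t := by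
  refine Integrable.mono' ((integrable_gk 0 z).norm.mul_const C)
    ((continuous_gk 0 z).norm.mul hφ).aestronglyMeasurable (Eventually.of_forall fun t => ?_)
  rw [norm_mul, norm_norm]
  exact mul_le_mul_of_nonneg_left (hC t) (norm_nonneg _)

theorem int_bd' (z : ℂ) (φ : ℝ → ℂ) (hφ : Continuous φ) (C : ℝ) (hC : ∀ t, ‖φ t‖ ≤ C) :
    Integrable fun t => gk 0 z t • φ t := by
  refine Integrable.mono' ((integrable_gk 0 z).norm.mul_const C)
    ((continuous_gk 0 z).smul hφ).aestronglyMeasurable (Eventually.of_forall fun t => ?_)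
  rw [norm_smul]
  exact mul_le_mul_of_nonneg_left (hC t) (norm_nonneg _)

/-- the common part of the two estimates -/
theorem est {V : ℝ → Op ι} (hge : ∀ z, ∫ t, gk 0 z t = 1) (hV : IsGroup V) {z : ℂ} {S A : Op ι}
    (hA : IsMean V z S A) (D : Op ι) (c : ℝ → Op ι) (hc : Continuous c) (C : ℝ)
    (hC : ∀ t, ‖c t‖ ≤ C) (p q : L2 ι → L2 ι) (b : Op ι)
    (h1 : ∀ u y, ⟪u, D y⟫_ℂ = ⟪p u, A (q y)⟫_ℂ - ⟪u, b y⟫_ℂ)
    (h2 : ∀ t u y, ⟪V (-t) (p u), S (V (-t) (q y))⟫_ℂ - ⟪u, b y⟫_ℂ =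
      ⟪V (-t) u, c t (V (-t) y)⟫_ℂ) :
    ‖D‖ ≤ ∫ t, ‖gk 0 z t‖ * ‖c t‖ := by
  have hint : Integrable fun t => ‖gk 0 z t‖ * ‖c t‖ :=
    int_bd z (fun t => ‖c t‖) hc.norm C fun t => by rw [norm_norm]; exact hC t
  refine opNorm_le_of_form _ _ (integral_nonneg fun t => by positivity) fun u y => ?_
  have h3 : ⟪u, D y⟫_ℂ = ∫ t, gk 0 z t •
      (⟪V (-t) (p u), S (V (-t) (q y))⟫_ℂ - ⟪u, b y⟫_ℂ) := by
    rw [h1, hA (p u) (q y)]
    simp only [smul_sub]
    rw [integral_sub, integral_smul_const, hge, one_smul]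
    · refine int_bd' z _ ?_ (‖p u‖ * (‖S‖ * ‖q y‖)) fun t => ?_
      · exact ((hV.cont (p u)).comp continuous_neg).inner
          (S.continuous.comp ((hV.cont (q y)).comp continuous_neg))
      · refine (norm_inner_le_norm _ _).trans ?_
        rw [hV.norm_apply]
        refine mul_le_mul_of_nonneg_left ?_ (norm_nonneg _)
        refine (ContinuousLinearMap.le_opNorm _ _).trans ?_
        rw [hV.norm_apply]
    · exact int_bd' z _ continuous_const _ fun t => le_rfl
  rw [h3, ← integral_mul_const]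
  refine norm_integral_le_of_norm_le (hint.mul_const _) (Eventually.of_forall fun t => ?_)
  rw [norm_smul, mul_assoc, h2]
  refine mul_le_mul_of_nonneg_left ?_ (norm_nonneg _)
  refine (norm_inner_le_norm _ _).trans ?_
  rw [hV.norm_apply]
  calc ‖u‖ * ‖c t (V (-t) y)‖ ≤ ‖u‖ * (‖c t‖ * ‖V (-t) y‖) :=
        mul_le_mul_of_nonneg_left (ContinuousLinearMap.le_opNorm _ _) (norm_nonneg _)
    _ = ‖c t‖ * (‖u‖ * ‖y‖) := by rw [hV.norm_apply]; ring

theorem inner_group {V : ℝ → Op ι} (hV : IsGroup V) (t : ℝ) (u y : L2 ι) :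
    ⟪u, y⟫_ℂ = ⟪V (-t) u, V (-t) y⟫_ℂ := by
  rw [hV.inner_left, neg_neg, ← hV.apply_add, add_neg_cancel, hV.apply_zero]

theorem est_left {V : ℝ → Op ι} (hge : ∀ z, ∫ t, gk 0 z t = 1) (hV : IsGroup V) {z : ℂ}
    {S A : Op ι} (hA : IsMean V z S A) (b : Op ι) (hb : Continuous (bt V b)) (hS : ‖S‖ ≤ 1) :
    ‖A * b - b‖ ≤ ∫ t, ‖gk 0 z t‖ * ‖S * bt V b t - bt V b t‖ := by
  refine est hge hV hA _ (fun t => S * bt V b t - bt V b t) ((continuous_const.mul hb).sub hb)
    (2 * ‖b‖) (fun t => ?_) id b b (fun u y => ?_) fun t u y => ?_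
  · refine (norm_sub_le _ _).trans ?_
    have h1 := norm_bt_le hV b t
    have h2 : ‖S * bt V b t‖ ≤ 1 * ‖b‖ :=
      (norm_mul_le _ _).trans (mul_le_mul hS h1 (norm_nonneg _) zero_le_one)
    linarith
  · change ⟪u, A (b y) - b y⟫_ℂ = _
    rw [inner_sub_right]
    rfl
  · change _ = ⟪V (-t) u, S (bt V b t (V (-t) y)) - bt V b t (V (-t) y)⟫_ℂ
    rw [inner_sub_right, ← bt_apply hV, ← inner_group hV t u (b y)]
    rfl

theorem est_right {V : ℝ → Op ι} (hge : ∀ z, ∫ t, gk 0 z t = 1) (hV : IsGroup V) {z : ℂ}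
    {S A : Op ι} (hA : IsMean V z S A) (b : Op ι) (hb : Continuous (bt V b)) (hS : ‖S‖ ≤ 1) :
    ‖b * A - b‖ ≤ ∫ t, ‖gk 0 z t‖ * ‖bt V b t * S - bt V b t‖ := by
  refine est hge hV hA _ (fun t => bt V b t * S - bt V b t) ((hb.mul continuous_const).sub hb)
    (2 * ‖b‖) (fun t => ?_) (fun u => (star b : Op ι) u) id b (fun u y => ?_) fun t u y => ?_
  · refine (norm_sub_le _ _).trans ?_
    have h1 := norm_bt_le hV b t
    have h2 : ‖bt V b t * S‖ ≤ ‖b‖ * 1 :=
      (norm_mul_le _ _).trans (mul_le_mul h1 hS (norm_nonneg _) (norm_nonneg _))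
    linarith
  · change ⟪u, b (A y) - b y⟫_ℂ = _
    rw [inner_sub_right, ContinuousLinearMap.star_eq_adjoint,
      ContinuousLinearMap.adjoint_inner_left]
    rfl
  · change _ = ⟪V (-t) u, bt V b t (S (V (-t) y)) - bt V b t (V (-t) y)⟫_ℂ
    rw [inner_sub_right, ← bt_apply hV b t y, ← inner_group hV t u (b y), bt_apply hV (star b),
      ← star_bt hV, ContinuousLinearMap.star_eq_adjoint,
      ContinuousLinearMap.adjoint_inner_left]
    rfl

/-- pointwise convergence of equicontinuous functions is locally uniform -/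
theorem unif {X : Type} (l : Filter X) (c : ℝ → Op ι) (hc : Continuous c) (Φ : X → Op ι → Op ι)
    (hΦ : ∀ᶠ x in l, ∀ p q, ‖Φ x p - Φ x q‖ ≤ 2 * ‖p - q‖)
    (hpt : ∀ t, Tendsto (fun x => Φ x (c t)) l (𝓝 0)) {K : Set ℝ} (hK : IsCompact K) {ε : ℝ}
    (hε : 0 < ε) : ∀ᶠ x in l, ∀ t ∈ K, ‖Φ x (c t)‖ ≤ ε := by
  refine hK.induction_on (p := fun s => ∀ᶠ x in l, ∀ t ∈ s, ‖Φ x (c t)‖ ≤ ε) ?_ ?_ ?_ ?_
  · exact Eventually.of_forall fun x t ht => absurd ht (Set.notMem_empty t)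
  · intro s t hst h
    filter_upwards [h] with x hx r hr
    exact hx r (hst hr)
  · intro s t hs ht
    filter_upwards [hs, ht] with x h1 h2 r hr
    rcases hr with hr | hr
    · exact h1 r hr
    · exact h2 r hr
  · intro t _
    have h1 : ∀ᶠ s in 𝓝 t, dist (c s) (c t) < ε / 4 :=
      Metric.tendsto_nhds.1 (hc.tendsto t) (ε / 4) (by positivity)
    refine ⟨{s | dist (c s) (c t) < ε / 4}, mem_nhdsWithin_of_mem_nhds h1, ?_⟩
    have h2 : ∀ᶠ x in l, dist (Φ x (c t)) 0 < ε / 2 :=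
      Metric.tendsto_nhds.1 (hpt t) (ε / 2) (by positivity)
    filter_upwards [hΦ, h2] with x h3 h4 s hs
    have h5 := h3 (c s) (c t)
    have h6 : ‖c s - c t‖ < ε / 4 := by rw [← dist_eq_norm]; exact hs
    rw [dist_zero_right] at h4
    have h7 : ‖Φ x (c s)‖ ≤ ‖Φ x (c t)‖ + ‖Φ x (c s) - Φ x (c t)‖ := by
      have := norm_add_le (Φ x (c t)) (Φ x (c s) - Φ x (c t))
      rwa [add_sub_cancel] at this
    linarith

/-- the integrals tend to zero -/
theorem int_small {X : Type} (l : Filter X) (c : ℝ → Op ι) (hc : Continuous c)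
    (Φ : X → Op ι → Op ι) (hΦ : ∀ᶠ x in l, ∀ p q, ‖Φ x p - Φ x q‖ ≤ 2 * ‖p - q‖)
    (hpt : ∀ t, Tendsto (fun x => Φ x (c t)) l (𝓝 0)) (f : ℝ → ℝ) (hf : Integrable f)
    (hf0 : ∀ t, 0 ≤ f t) (C : ℝ) (hC : 0 ≤ C) (hb : ∀ᶠ x in l, ∀ t, ‖Φ x (c t)‖ ≤ C)
    {ε : ℝ} (hε : 0 < ε) : ∀ᶠ x in l, ∫ t, f t * ‖Φ x (c t)‖ ≤ ε := by
  obtain ⟨g, hg1, hg2, hg3, hg4⟩ := hf.exists_hasCompactSupport_integral_sub_le
    (ε := ε / (2 * (C + 1))) (by positivity)
  have hG : 0 ≤ ∫ t, ‖g t‖ := integral_nonneg fun t => norm_nonneg _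
  set G := ∫ t, ‖g t‖ with hGdef
  have h1 := unif l c hc Φ hΦ hpt hg1.isCompact (ε := ε / (2 * (G + 1))) (by positivity)
  filter_upwards [h1, hb] with x h2 h3
  have h4 : ∀ t, f t * ‖Φ x (c t)‖ ≤ ‖f t - g t‖ * C + ‖g t‖ * (ε / (2 * (G + 1))) := by
    intro t
    have h5 : f t * ‖Φ x (c t)‖ = (f t - g t) * ‖Φ x (c t)‖ + g t * ‖Φ x (c t)‖ := by ring
    rw [h5]
    refine add_le_add ?_ ?_
    · exact mul_le_mul (Real.le_norm_self _) (h3 t) (norm_nonneg _) (norm_nonneg _)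
    · by_cases h6 : t ∈ tsupport g
      · exact mul_le_mul (Real.le_norm_self _) (h2 t h6) (norm_nonneg _) (norm_nonneg _)
      · rw [image_eq_zero_of_notMem_tsupport h6]
        simp
  have hfg : Integrable fun t => ‖f t - g t‖ * C := (hf.sub hg4).norm.mul_const C
  have h7 : Integrable fun t => ‖f t - g t‖ * C + ‖g t‖ * (ε / (2 * (G + 1))) :=
    hfg.add (hg4.norm.mul_const _)
  refine (integral_mono_of_nonneg (Eventually.of_forall fun t => ?_) h7
    (Eventually.of_forall h4)).trans ?_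
  · exact mul_nonneg (hf0 t) (norm_nonneg _)
  · rw [integral_add hfg (hg4.norm.mul_const _),
      integral_mul_const, integral_mul_const, ← hGdef]
    have h8 : (∫ t, ‖f t - g t‖) * C ≤ ε / 2 := by
      calc (∫ t, ‖f t - g t‖) * C ≤ (ε / (2 * (C + 1))) * (C + 1) :=
            mul_le_mul hg2 (by linarith) hC (by positivity)
        _ = ε / 2 := by field_simp
    have h9 : G * (ε / (2 * (G + 1))) ≤ ε / 2 := by
      calc G * (ε / (2 * (G + 1))) ≤ (G + 1) * (ε / (2 * (G + 1))) :=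
            mul_le_mul_of_nonneg_right (by linarith) (by positivity)
        _ = ε / 2 := by field_simp
    change (∫ t, ‖f t - g t‖) * C + G * (ε / (2 * (G + 1))) ≤ ε
    linarith

/-- HLM -/
theorem hlm (hcb : HcbStmt) (hge : HgeStmt) : HlmStmt := by
  intro ι M X l S A z hSA hS b hb
  have hg : ∀ z : ℂ, ∫ t, gk 0 z t = 1 := fun z =>
    (hge ℂ 0 (fun _ => 0) 0 continuous_const fun t => by simp).2.2 z
  have hV := M.V_group
  obtain ⟨hb1, hb2⟩ := hcb ι M b hb
  have hbt : Continuous (bt M.V b) := by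
    have h1 := hb2.comp continuous_neg
    refine h1.congr fun t => ?_
    change M.V (-t) * b * M.V (- -t) = _
    rw [neg_neg]
    rfl
  have hmem : ∀ t, bt M.V b t ∈ Balg M.W := fun t => by
    have h1 := hb1 (-t)
    rwa [neg_neg] at h1
  constructor
  · rw [Metric.tendsto_nhds]
    intro ε hε
    have h1 := int_small l (bt M.V b) hbt (fun x p => S x * p - p)
      (by
        filter_upwards [hSA] with x hx p q
        have h2 : S x * p - p - (S x * q - q) = S x * (p - q) - (p - q) := by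
          rw [mul_sub]
          abel
        rw [h2]
        refine (norm_sub_le _ _).trans ?_
        have h3 : ‖S x * (p - q)‖ ≤ 1 * ‖p - q‖ :=
          (norm_mul_le _ _).trans (mul_le_mul_of_nonneg_right hx.1 (norm_nonneg _))
        linarith)
      (fun t => by
        have h2 := (hS (bt M.V b t) (hmem t)).1
        have h3 := h2.sub_const (bt M.V b t)
        rwa [sub_self] at h3)
      (fun t => ‖gk 0 z t‖) (integrable_gk 0 z).norm (fun t => norm_nonneg _) (2 * ‖b‖)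
      (by positivity)
      (by
        filter_upwards [hSA] with x hx t
        refine (norm_sub_le _ _).trans ?_
        have h2 := norm_bt_le hV b t
        have h3 : ‖S x * bt M.V b t‖ ≤ 1 * ‖b‖ :=
          (norm_mul_le _ _).trans (mul_le_mul hx.1 h2 (norm_nonneg _) zero_le_one)
        linarith) (ε := ε / 2) (by positivity)
    filter_upwards [h1, hSA] with x h2 h3
    rw [dist_eq_norm]
    exact lt_of_le_of_lt ((est_left hg hV h3.2 b hbt h3.1).trans h2) (half_lt_self hε)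
  · rw [Metric.tendsto_nhds]
    intro ε hε
    have h1 := int_small l (bt M.V b) hbt (fun x p => p * S x - p)
      (by
        filter_upwards [hSA] with x hx p q
        have h2 : p * S x - p - (q * S x - q) = (p - q) * S x - (p - q) := by
          rw [sub_mul]
          abel
        rw [h2]
        refine (norm_sub_le _ _).trans ?_
        have h3 : ‖(p - q) * S x‖ ≤ ‖p - q‖ * 1 :=
          (norm_mul_le _ _).trans (mul_le_mul_of_nonneg_left hx.1 (norm_nonneg _))
        linarith)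
      (fun t => by
        have h2 := (hS (bt M.V b t) (hmem t)).2
        have h3 := h2.sub_const (bt M.V b t)
        rwa [sub_self] at h3)
      (fun t => ‖gk 0 z t‖) (integrable_gk 0 z).norm (fun t => norm_nonneg _) (2 * ‖b‖)
      (by positivity)
      (by
        filter_upwards [hSA] with x hx t
        refine (norm_sub_le _ _).trans ?_
        have h2 := norm_bt_le hV b t
        have h3 : ‖bt M.V b t * S x‖ ≤ ‖b‖ * 1 :=
          (norm_mul_le _ _).trans (mul_le_mul h2 hx.1 (norm_nonneg _) (norm_nonneg _))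
        linarith) (ε := ε / 2) (by positivity)
    filter_upwards [h1, hSA] with x h2 h3
    rw [dist_eq_norm]
    exact lt_of_le_of_lt ((est_right hg hV h3.2 b hbt h3.1).trans h2) (half_lt_self hε)

end Pool.Agent.MQG.H31
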