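import Pool.Agent.MQG.StmtsB

set_option autoImplicit false

/-!
# Block B, row LMB: `λ(L^1(G))` is a dense subspace of `C_0(G^)`
-/

namespace Pool.Agent.MQG.H31

open scoped InnerProductSpace InnerProduct Topology
open Complex Filter

variable {κ ι : Type}

theorem lam_add (U : Op (κ × ι)) (μ ν : Du U) : lam U (μ + ν) = lam U μ + lam U ν := by
  refine ContinuousLinearMap.ext fun y => ext_inner_left ℂ fun u => ?_
  rw [inner_lam, ContinuousLinearMap.add_apply, ContinuousLinearMap.add_apply, inner_add_right,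
    inner_lam, inner_lam]

theorem lam_smul (U : Op (κ × ι)) (c : ℂ) (μ : Du U) : lam U (c • μ) = c • lam U μ := by
  refine ContinuousLinearMap.ext fun y => ext_inner_left ℂ fun u => ?_
  rw [inner_lam, ContinuousLinearMap.smul_apply, ContinuousLinearMap.smul_apply, inner_smul_right,
    inner_lam, smul_eq_mul]

/-- `λ` as a continuous linear map -/
theorem ex_lamL (lno : LnoStmt) (U : Op (κ × ι)) (hU : U ∈ unitary (Op (κ × ι))) :
    ∃ L : Du U →L[ℂ] Op ι, ∀ μ, L μ = lam U μ := by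
  refine ⟨LinearMap.mkContinuous
    { toFun := fun μ => lam U μ
      map_add' := fun μ ν => lam_add U μ ν
      map_smul' := fun c μ => lam_smul U c μ } 1 fun μ => ?_, fun μ => rfl⟩
  rw [one_mul]
  exact lno ι κ U hU μ

/-- the functional of two vectors -/
theorem lam_vec (W : Op (ι × ι)) (WW : Op (κ × ι)) (Λ : Al WW →⋆ₙₐ[ℂ] Op ι)
    (hΛ : ∀ u y, Λ (asl WW u y) = sl W u y) (x z : L2 ι) (ω : Du WW)
    (hω : ∀ a, ω a = ⟪x, Λ a z⟫_ℂ) : lam WW ω = co W x z := by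
  refine ContinuousLinearMap.ext fun y => ext_inner_left ℂ fun u => ?_
  rw [inner_lam, hω, hΛ, inner_sl, inner_co]

theorem ex_vec (WW : Op (κ × ι)) (Λ : Al WW →⋆ₙₐ[ℂ] Op ι) (x z : L2 ι) :
    ∃ ω : Du WW, ∀ a, ω a = ⟪x, Λ a z⟫_ℂ := by
  refine ⟨LinearMap.mkContinuous
    { toFun := fun a => ⟪x, Λ a z⟫_ℂ
      map_add' := fun a b => by
        rw [map_add, ContinuousLinearMap.add_apply, inner_add_right]
      map_smul' := fun c a => by
        rw [map_smul, ContinuousLinearMap.smul_apply, inner_smul_right, RingHom.id_apply,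
          smul_eq_mul] } (‖x‖ * ‖z‖) fun a => ?_, fun a => rfl⟩
  have h1 : ‖⟪x, Λ a z⟫_ℂ‖ ≤ ‖x‖ * ‖Λ a z‖ := norm_inner_le_norm _ _
  have h2 : ‖Λ a z‖ ≤ ‖Λ a‖ * ‖z‖ := (Λ a).le_opNorm z
  have h3 : ‖Λ a‖ ≤ ‖a‖ := NonUnitalStarAlgHom.norm_apply_le Λ a
  calc ‖⟪x, Λ a z⟫_ℂ‖ ≤ ‖x‖ * ‖Λ a z‖ := h1
    _ ≤ ‖x‖ * (‖a‖ * ‖z‖) := mul_le_mul_of_nonneg_left
        (h2.trans (mul_le_mul_of_nonneg_right h3 (norm_nonneg _))) (norm_nonneg _)
    _ = ‖x‖ * ‖z‖ * ‖a‖ := by ring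

theorem co_mem (W : Op (ι × ι)) (x z : L2 ι) : co W x z ∈ Balg W :=
  NonUnitalStarSubalgebra.le_topologicalClosure _
    (NonUnitalStarAlgebra.subset_adjoin ℂ _ ⟨x, z, rfl⟩)

theorem lmb (lno : LnoStmt) (abs : AbsStmt) : LmbStmt := by
  intro ι M κ WW hU
  obtain ⟨L, hL⟩ := ex_lamL lno WW hU.adapted.unit
  have hW : Adapted M.W M.W := ⟨M.W_unitary, M.pentagon⟩
  obtain ⟨Λ, hΛ⟩ := hU.lift ι M.W hW
  constructor
  · have h1 : L1 M.W WW ≤
        ((Balg M.W).toNonUnitalSubalgebra.toSubmodule).comap (L : Du WW →ₗ[ℂ] Op ι) := by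
      refine Submodule.topologicalClosure_minimal _ ?_ ?_
      · rw [Submodule.span_le]
        rintro ω ⟨Λ', hΛ', x, z, hω⟩
        show L ω ∈ Balg M.W
        rw [hL, lam_vec M.W WW Λ' hΛ' x z ω hω]
        exact co_mem M.W x z
      · exact (isClosed_Balg M.W).preimage L.continuous
    intro ω hω
    have h2 : L ω ∈ Balg M.W := h1 hω
    rwa [hL] at h2
  · intro b hb
    refine closure_mono ?_ (abs ι M b hb)
    have h1 : Submodule.span ℂ {T : Op ι | ∃ x z, T = co M.W x z} ≤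
        (L1 M.W WW).map (L : Du WW →ₗ[ℂ] Op ι) := by
      rw [Submodule.span_le]
      rintro _ ⟨x, z, rfl⟩
      obtain ⟨ω, hω⟩ := ex_vec WW Λ x z
      refine ⟨ω, Submodule.le_topologicalClosure _ (Submodule.subset_span ⟨Λ, hΛ, x, z, hω⟩), ?_⟩
      show L ω = co M.W x z
      rw [hL, lam_vec M.W WW Λ hΛ x z ω hω]
    intro T hT
    obtain ⟨ω, hω, hT⟩ := h1 hT
    refine ⟨ω, hω, ?_⟩
    rw [← hL]
    exact hT

end Pool.Agent.MQG.H31
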